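import Pool.Agent.Lib.TFW.All

open Filter Topology

namespace Pool.Agent.Results.MP_0195ba_mp.LongRange

open Pool.Agent.Lib.TFW

theorem result :
    ∃ μ c : ℝ → ℝ, (∀ z, 0 < z → Tail z (μ z) (c z)) ∧ ∀ z₁ z₂, 0 < z₁ → 0 < z₂ → μ z₁ = μ z₂ →
      Tendsto
        (fun R => R * Real.exp (√(μ z₁ / A) * R) * (Emol z₁ z₂ R - Eat z₁ z₁ - Eat z₂ z₂)) atTop
        (𝓝 (-(8 * Real.pi * A * c z₁ * c z₂))) := by
  obtain ⟨μ, c, h1, h2⟩ := all_main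
  exact ⟨μ, c, h1, fun z₁ z₂ a b => (h2 z₁ z₂ a b).1⟩

end Pool.Agent.Results.MP_0195ba_mp.LongRange
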